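import Mathlib
import Pool.Agent.Lib.MP_ae5b4e_an_PN.FinT

/-!
# MP_ae5b4e_an: projective involutions with action-angle variables, few steps around the curve

Let `γ` be a smooth closed strictly convex curve in the plane, `γ.T` the period of its
parametrisation `t ↦ (x t, y t)`, and `γ.Γ t = (x t, y t, 1)`; the curvature may have zeros.  The
point with the coordinate `u` of the tangent line of `γ` at the parameter `t` is
`γ.pt t u = γ(t) + γ'(t) / u` (`u = ∞` is the tangency point, `u = 0` the point at infinity); `u` is
a projective coordinate of the tangent line, and the projective involutions that fix the tangency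
point and exchange its two sides are the maps `u ↦ κ - u`.  The leaves are closed curves
`γ.leaf U c`, `0 < c < 1`, the sets of the points `γ.pt t (U c t)`; they form a smooth foliation of
an exterior neighbourhood of `γ` and converge to `γ` for `c → 0`.  All the involutions of the
tangent lines are projective; the field `κ` of the involutions is arbitrary.

The map of the leaf `c` is `t ↦ s`, where `s`, `t < s < t + T`, is the tangency parameter of the
second tangent line through the point of the leaf on the tangent line at `t`.

THEOREM.  Suppose that the maps of the leaves `L_c`, `0 < c < b`, are conjugate to rotations,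
smoothly in `c`: there is a function `h (c, t)`, smooth for `0 < c < b`, with `h_t > 0`,
`h (c, t + T) = h (c, t) + 1`, and `h (c, s) = h (c, t) + ρ (c)` for the map `t ↦ s` of the leaf.
Suppose that the rotation number `ρ` of ONE of these leaves is at least `1 / 3`.  Then `γ` is an
ellipse `E = 0`, and for some quadratic form `Q`, positive on `γ`, every leaf `L_c`, `0 < c < 1`, is
a nondegenerate conic `Q = r E`.  More generally: if the curve and the field `κ` are invariant under
the rotation by `2 π / k` about the origin (nothing is assumed about the leaves), `k ≥ 1`, then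
`ρ (c) ≥ 1 / m` suffices, where `m` is the least multiple of `k` with `m ≥ 3`: `m = 3, 4, 3, 4` for
`k = 1, 2, 3, 4` and `m = k` for `k ≥ 5`.

The hypothesis says that the billiard map of the open collar `0 < c < b`, in the coordinates `c`,
`t` the map `(c, t) ↦ (c, s)`, preserves a smooth area form `w dc ∧ dt`, `w > 0`: if `h` is given
then `w = h_t` is invariant, and if `w` is given then `h (c, t)` is the integral of `w` from `0` to
`t` divided by its integral over the period.  Nothing is assumed about the form and about `h` at the
curve, `c → 0`.  For example, let `N` be a smooth positive function on a cone of `ℝ ^ 3` which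
contains the points of the leaves `c < b`, `N (r v) = |r| N (v)`; if
`N (u Γ + Γ') = N (v Γ + Γ')` for the two points `u`, `v` of each leaf on each tangent line, then
the map preserves the area form `N (x, y, 1) ^ (-3) dx ∧ dy` of the plane.  The involutions of a
quadratic form `Q` (they permute the zeros of `Q`) are the case `N = |Q| ^ (1/2)`: `Q = z ^ 2` are
the outer billiards; `Q = x ^ 2 + y ^ 2` are, by polar duality, the Birkhoff billiards;
`Q = x ^ 2 + y ^ 2 + z ^ 2` and `Q = x ^ 2 + y ^ 2 - z ^ 2` are the outer billiards and, by duality,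
the Birkhoff billiards of the surfaces of constant curvature.

There is no assumption of analyticity, algebraicity, of nearness to a conic or of symmetry of the
leaves.  The number `m` is sharp for the method: it is the lowest frequency of a deformation of the
circle with the symmetry which is not tangent to the ellipses, and this deformation is resonant on
the leaf with the rotation number `1 / m`, not before.

Idea of the proof.  After a change of the parameter and of the lift, `det (Γ, Γ', Γ'') = 1`
and `κ = 0`.  Let `dd x y = det (Γ x, Γ y, Γ' y)`, `δ x y = log (dd x y) - log (dd y x)`,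
`K x y = dd y x / dd x y ^ 2`.  For the map `s = f_c (t)` of the leaf `c` let
`φ (c, t) = (log (- U_c) - log h_t) / 3` and `p = φ_c / U_c`.  Then
`δ t s = φ (c, s) - φ (c, t)`.  Let

`B (c) = ∫_0^T δ t s (K t s p (c, t) f_c'(t) - K s t p (c, s)) dt`.

(1) `B' (c) = ∫ (f' / f_c) (φ_c (s) - φ_c (t)) ^ 2 + δ t s (K s t - K t s) f_c dt ≥ 0` (here `f_c`
and `φ_c` are the derivatives in the parameter of the leaf), because `K s t = exp (3 δ t s) K t s`.
(2) `B (c) ≥ 0`: on the leaves of the `q`-periodic points, `q → ∞`, the function `φ` can be
estimated by `δ` along the orbits, and `B (c) → 0` along these leaves.  (3) If `ρ (c₁) ≥ 1 / m` then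
there is a leaf `c₃ ≤ c₁` all of whose points are `m`-periodic; if the curve and the field are
symmetric, then this leaf is symmetric.  (4) On this leaf `B (c₃) ≤ 0`: for `m = 3` the integrand is
`≤ 0` at every point, and for `m = 4`, `k = 2` the sum of the integrands at `t` and `t + T / 2` is
`≤ 0`, by an algebraic identity for the triangles and for the centrally symmetric quadrangles
circumscribed about `γ` and inscribed in the leaf; for `m = k` the map of the leaf is the rotation,
and `B = 0` because `δ = 0` on the leaf.  So `δ = 0` on the leaves below, the function `dd` is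
symmetric near the diagonal, and therefore an arc of `γ` lies on a conic.  (5) The theorem about
curves with an arc on a conic (`Pool.Agent.MP_ae5b4e_an_FA.conic_all`, the main step of our result
PencilConic) describes `γ` and all the leaves.
-/

noncomputable section

namespace Pool.Agent.Results.MP_ae5b4e_an.ActionAngle

open Real Set Filter Topology
open scoped ContDiff
open Pool.Agent.MP_ae5b4e_an_FA (StrictCurve conic)

/-- A smooth closed strictly convex curve with a smooth foliation by closed curves which induces
projective involutions on its tangent lines is an ellipse, and the leaves are conics of one pencil,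
if the maps of the leaves are conjugate to rotations, smoothly in the parameter of the leaves, up to
the rotation number `1 / m`, where `m` is the least multiple of `k` with `m ≥ 3` and the curve and
the involutions are invariant under the rotation by `2 π / k` (`k = 1`: no condition). -/
theorem result (γ : StrictCurve) (U : ℝ → ℝ → ℝ) (κ : ℝ → ℝ)
    (hsmooth : ContDiffOn ℝ ∞ (fun q : ℝ × ℝ => U q.1 q.2) (Ioo 0 1 ×ˢ univ))
    (hper : ∀ c ∈ Ioo (0:ℝ) 1, ∀ t, U c (t + γ.T) = U c t)
    (hsimple : ∀ c ∈ Ioo (0:ℝ) 1, ∀ t t', γ.pt t (U c t) = γ.pt t' (U c t') →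
      ∃ n : ℤ, t' = t + n * γ.T)
    (hmono : ∀ c ∈ Ioo (0:ℝ) 1, ∀ t, deriv (fun r => U r t) c < 0)
    (hlim : ∀ t, Tendsto (fun c => U c t) (𝓝[>] 0) atTop)
    (hproj : ∀ c ∈ Ioo (0:ℝ) 1, ∀ t u v, u ≠ v → γ.pt t u ∈ γ.leaf U c →
      γ.pt t v ∈ γ.leaf U c → u + v = κ t)
    (b : ℝ) (hb : b ≤ 1) (h : ℝ → ℝ → ℝ) (ρ : ℝ → ℝ)
    (hh : ContDiffOn ℝ ∞ (fun q : ℝ × ℝ => h q.1 q.2) (Ioo 0 b ×ˢ univ))
    (hpos : ∀ c ∈ Ioo 0 b, ∀ t, 0 < deriv (h c) t)
    (hturn : ∀ c ∈ Ioo 0 b, ∀ t, h c (t + γ.T) = h c t + 1)
    (hrot : ∀ c ∈ Ioo 0 b, ∀ t s v, t < s → s < t + γ.T → γ.pt t (U c t) = γ.pt s v →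
      h c s = h c t + ρ c)
    (k m : ℕ) (hk : 0 < k)
    (hsym : 1 < k → ∀ t, γ.x (t + γ.T / k) = cos (2 * π / k) * γ.x t - sin (2 * π / k) * γ.y t ∧
      γ.y (t + γ.T / k) = sin (2 * π / k) * γ.x t + cos (2 * π / k) * γ.y t ∧
      κ (t + γ.T / k) = κ t)
    (hm : IsLeast {n | 3 ≤ n ∧ k ∣ n} m) (c₁ : ℝ) (hc₁ : c₁ ∈ Ioo 0 b)
    (hρ : 1 / (m : ℝ) ≤ ρ c₁) :
    ∃ Q E : QuadraticForm ℝ (Fin 3 → ℝ), E.Nondegenerate ∧ γ.trace = conic E ∧
      (∀ t, 0 < Q (γ.Γ t)) ∧
      ∀ c ∈ Ioo (0:ℝ) 1, ∃ r : ℝ, (Q - r • E).Nondegenerate ∧
        γ.leaf U c = conic (Q - r • E) :=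
  Pool.Agent.MP_ae5b4e_an_PN.strict_pencil_angle γ U κ hsmooth hper hsimple hmono hlim hproj hb h
    ρ hh hpos hturn hrot hk hsym hm hc₁ hρ

end Pool.Agent.Results.MP_ae5b4e_an.ActionAngle
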