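import Mathlib
import Pool.Agent.Lib.MP_ae5b4e_an_RG.MetS

/-!
# MP_ae5b4e_an: the involutions of a quadratic form on the tangent lines of a smooth curve with an
algebraic arc

Let `γ` be a `C^∞` closed convex curve of positive curvature, ONE arc of which, however short, lies
on an algebraic curve `P(x, y) = 0` (any nonzero polynomial `P`, any singularities), and let `Q` be
a quadratic form in homogeneous coordinates which has no zeros on `γ`.  On every tangent line `ℓ_p`
of `γ` consider the projective involution which fixes the tangency point `p` and preserves the (real
or complex) zeros of `Q` on `ℓ_p`.  Suppose that a one-sided neighbourhood of `γ`, arbitrarily thin,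
is filled by closed curves `L_c` and that these involutions exchange the two points of `L_c` on
`ℓ_p`.  Then `γ` is an ellipse and the `L_c` are conics of the pencil of `γ` and `Q = 0`.

* `Q = z²`: the involutions are the point reflections in `p`, the `L_c` are invariant curves of the
  outer billiard about `γ`.
* `Q = x² + y²`: `γ` is the polar dual of a billiard table and the `L_c` are the polar duals of the
  caustics: the local Birkhoff-Poritsky conjecture for all smooth tables which have one algebraic
  arc.
* `Q = x² + y² ± z²`: billiards on the sphere and on the hyperbolic plane.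

Idea of the proof.  Smooth curves with such a family of closed curves are real-analytic (file
`Regularity`), so all of `γ` is algebraic.  The curves `L_c` give a first integral, analytic near the
complexification of an arc of `γ` (generating function, twist map, KAM-free argument with a
Lagrangian), hence (identity theorem for the coefficients of its slope, which are differential
polynomials of the curve) near every regular point of the complex algebraic curve.  At a place where
the curve is `(w ^ a, w ^ b)` up to higher order terms, `(a, b) ≠ (1, 2)`, the integral has a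
homogeneous limit, which does not exist for the exponents and positions of `Q` that matter: the time
of the limit is an odd function with a second symmetry, it is continued to the upper half plane and
leads to a contradiction; the places `(k, 2k)` are excluded by the first ramified exponent.  So
Monge's invariant of the curve (the projective cubic differential divided by the cube of the length
element of `Q`) is bounded on the algebraic curve: by Liouville's theorem it is constant, and it
vanishes, so `γ` is a conic.  Poncelet's theorem gives the leaves.
-/

set_option autoImplicit false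

noncomputable section

namespace Pool.Agent.Results.MP_ae5b4e_an.AlgebraicBilliard

open Real Set Filter Topology Polynomial
open Pool.Agent.MP_ae5b4e_an_hopf
open Pool.Agent.MP_ae5b4e_an_MET (conic)

/-- If a foliation by closed curves near a smooth convex curve with an algebraic arc induces on its
tangent lines the involutions of a quadratic form, then the curve is an ellipse and the leaves are
conics of one pencil. -/
theorem result (γ : ConvexCurve) {P : ℝ[X][X]} (hP : P ≠ 0) {t₀ : ℝ}
    (hrel : ∀ᶠ t in 𝓝 t₀, evalEval (γ.x t) (γ.y t) P = 0)
    (Q : QuadraticForm ℝ (Fin 3 → ℝ)) (hQ : ∀ t, Q (γ.Γ t) ≠ 0)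
    (U : ℝ → ℝ → ℝ)
    (hcont : ContinuousOn (fun p : ℝ × ℝ => U p.1 p.2) (Ioo 0 1 ×ˢ univ))
    (hper : ∀ c ∈ Ioo (0:ℝ) 1, ∀ t, U c (t + γ.T) = U c t)
    (hsimple : ∀ c ∈ Ioo (0:ℝ) 1, ∀ t t', γ.pt t (U c t) = γ.pt t' (U c t') →
      ∃ n : ℤ, t' = t + n * γ.T)
    (hmono : ∀ c ∈ Ioo (0:ℝ) 1, ∀ c' ∈ Ioo (0:ℝ) 1, c < c' → ∀ t, U c' t < U c t)
    (hlim : ∀ t, Tendsto (fun c => U c t) (𝓝[>] 0) atTop)
    (hproj : ∀ c ∈ Ioo (0:ℝ) 1, ∀ t u v, u ≠ v → γ.pt t u ∈ γ.leaf U c →
      γ.pt t v ∈ γ.leaf U c → Q (γ.hvec t u) = Q (γ.hvec t v)) :
    ∃ E : QuadraticForm ℝ (Fin 3 → ℝ), E.Nondegenerate ∧ γ.trace = conic E ∧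
      ∀ c ∈ Ioo (0:ℝ) 1, ∃ ρ : ℝ, (Q - ρ • E).Nondegenerate ∧
        γ.leaf U c = conic (Q - ρ • E) :=
  Pool.Agent.MP_ae5b4e_an_RG.met_smooth γ hP hrel Q hQ U hcont hper hsimple hmono hlim hproj

end Pool.Agent.Results.MP_ae5b4e_an.AlgebraicBilliard
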