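import Mathlib
import Pool.Agent.Lib.MP_ae5b4e_an_LOC.NeOsc
import Pool.Agent.Lib.MP_ae5b4e_an_LOC.PathF
import Pool.Agent.Lib.MP_ae5b4e_an_LOC.Rch
import Pool.Agent.Lib.MP_ae5b4e_an_LOC.Nuq
import Pool.Agent.Lib.MP_ae5b4e_an_ALM.Bd

/-!
# MP_ae5b4e_an: every solution whose curve is near a conic at one point is a pencil of conics

A solution (`Sol`) is a smooth closed convex curve `γ` of positive curvature together with closed
curves `L_c`, `0 < c < 1`, which fill a one-sided neighbourhood of `γ` of any thickness, such that
all the involutions of the tangent lines are projective: in the coordinate `u` of the point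
`γ t + γ' t / u` of the tangent line at `t` (`u = ∞` is the tangency point) they are the maps
`u ↦ κ t - u`.  There is no first integral, no symmetry and no assumption of analyticity.

Every solution has a normal form (`Normal`), unique up to a translation of the parameter: a parameter
`x` of period one and a lift `P = lam (γ, 1)` with `det (P, P', P'') = 1` for which the involution of
the tangent line at `x` exchanges `P' + v P` and `P' - v P`.  The periodic functions `r`, `m` with
`P''' + r P' + m P = 0` determine the curve and the field of involutions up to projective maps, and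
they are projective invariants.  The curve is a conic if and only if `g = m - r' / 2` vanishes
(`g dx ^ 3` is the cubic form of the curve).  `Bnd K`: `|r|, …, |r'''|, |m|, |m'|, |m''| ≤ K`.
`Reach δ`: some leaf is at the distance `≥ δ` from the curve; all solutions have a positive reach.

THEOREM.  For all `K`, `δ > 0`, `η > 0` there are `N` and `ε > 0` such that the following holds for
every solution with the bound `K` and the reach `δ`, for which `r` has at least the oscillation `η`
or `3 / 7 < δ`.  If at ONE point the first `N` derivatives of `g` are at most `ε` (the curve has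
almost a contact of finite order with a conic at one point), or if `|g| ≤ ε` on one interval of
length `2 η` (the curve is near a conic along one short arc) - in both cases nothing is assumed on
the field of involutions -, or if `r`, `m` are `ε`-near those of some pencil solution, then the
solution is a pencil of conics.

COROLLARY.  A family of solutions over a connected space, whose normal coefficients depend
continuously on the parameter and are locally bounded, with a reach locally bounded from below
(above `3 / 7` where `r` is constant, i.e. at the concentric circles), consists of pencils as soon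
as one member is a pencil.

Idea of the proof.  (0) By the estimates for the closed polygons with `q` vertices, `q → ∞`, the
functions `r`, `m` are real-analytic, with a width of the strip which depends only on `K` and `δ`;
so for `N → ∞`, `ε → 0` a subsequence converges, with all derivatives, to a curve with `g = 0`, a
conic.  The closing property of the polygons (a closed polygon with short sides which satisfies the
law except at one vertex satisfies it there) passes to the limit, and by the theorem of the hand-in
`PencilConic` (this part of its proof uses the closing property only) the limit field is the field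
of a pencil of conics.  By compactness it is enough to show that solutions near a fixed pencil are
pencils.

(1) Let `E = 0`, `Q` be the forms of the pencil, `Q (P₀) = 1`.  For forms `E`, `Q`, `G` near
`(E, Q, 0)`, `G` a quartic form in a fixed complement of the ideal `(E, Q)` (four parameters; eight
more for a projective frame), the function `Ψ = E / Q + G / Q ^ 2` takes opposite values at the
vertices of the polygons in the following sense: the values at the two ends `P ± τ P'` of a tangent
segment differ by `2 τ (e₀ + ..) + O (τ ^ 3)`, an EXACT rational expression in two periodic functions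
`e₀`, `e₁` (the defects), `κ`-like and source terms; the sum over a polygon telescopes to zero.  If
`e₀ = e₁ = 0` and `G = 0` then the curve lies on a conic.  The twelve parameters are chosen such that
`(e₀, e₁)` is orthogonal to the twelve kernel elements of the linear theory.

(2) High Fourier modes of `(e₀, e₁)` are controlled by two leaves for each mode, uniformly.  By
compactness it remains to show that the exact limit equations on the pencil, for all leaves with
rational rotation number `p / q < δ`, have only the trivial solution.  There is a limit equation of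
first order (`G = 0`) and, because the source terms are quadratic, one of second order with a source
`- 2 G ^ 2`.

(3) The linear theory (non-circular pencils).  For the Jacobi elliptic time map `φ (ω, x)` of the
pencil, the laws for all `p / q < r` say that certain Fourier coefficients `∫ f exp (-2 π i m φ)`
vanish; they are analytic in `ω` and this gives a functional equation for `F (ω, ·)`,
`f₀ + λ f₁ + λ ² f₂`, under the translation by `ω`; the functions extend to the whole strip below the
line `Im x = h` of the base points, are continued across this line, the jump at the base points is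
studied by a local analysis at `ω → 0`; they are rational functions on the conic with poles of small
order at the four base points, hence the twelve kernel elements; the source leads to a pole of order
`7` in `N = z ^ 2 - ω ^ 2 / 4` which is excluded by a determinant (`105 ≠ 0`).

(4) Circular pencils.  The modes of order three and four of the quartic form are killed by the
leaves `3 / 7`, `3 / 8`, `3 / 9`, together with those for `p = 1, 2`, by an exact computation of
second and third order: `|c| ^ 3 + |c| (|c₄| + |q| |c₃|)` bounds the defects.

(5) A curve which lies on a conic belongs to a pencil: theorem `PencilConic`.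
-/

noncomputable section

namespace Pool.Agent.Results.MP_ae5b4e_an.NearConic

open Real Set Filter Topology
open scoped ContDiff
open Pool.Agent.MP_ae5b4e_an_hopf (ConvexCurve)
open Pool.Agent.MP_ae5b4e_an_RG (Pencil)
open Pool.Agent.MP_ae5b4e_an_RIG (Sol Normal Bnd Reach)

/-- The normal form (existence, uniqueness, positive reach, bounds; `g = m - r' / 2` vanishes
exactly for the conics); the theorem: every solution whose curve is near a conic at one point or
along one arc, or which is near a pencil, is a pencil; and its corollary for connected families. -/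
theorem result :
    (∀ (γ : ConvexCurve) (U : ℝ → ℝ → ℝ) (κ : ℝ → ℝ), Sol γ U κ → ∃ σ lam r m : ℝ → ℝ,
      Normal γ κ σ lam r m ∧ (∃ K, Bnd K r m) ∧ (∃ δ > 0, Reach γ U σ δ) ∧
      ((∀ x, m x = deriv r x / 2) ↔
        ∃ C : QuadraticForm ℝ (Fin 3 → ℝ), C ≠ 0 ∧ ∀ t, C (γ.Γ t) = 0)) ∧
    (∀ (γ : ConvexCurve) (κ σ lam r m σ' lam' r' m' : ℝ → ℝ), Normal γ κ σ lam r m →
      Normal γ κ σ' lam' r' m' → ∃ s : ℝ, ∀ x, σ' x = σ (x + s) ∧ lam' x = lam (x + s) ∧
        r' x = r (x + s) ∧ m' x = m (x + s)) ∧
    (∀ K δ η : ℝ, 0 < δ → 0 < η → ∃ (N : ℕ) (ε : ℝ), 0 < ε ∧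
      ∀ (γ : ConvexCurve) (U : ℝ → ℝ → ℝ) (κ σ lam r m : ℝ → ℝ), Sol γ U κ →
        Normal γ κ σ lam r m → Bnd K r m → Reach γ U σ δ →
        (3 / 7 < δ ∨ ∃ x y, η ≤ |r x - r y|) →
        ((∃ x₀, ∀ j ≤ N, |iteratedDeriv j (fun x => m x - deriv r x / 2) x₀| ≤ ε) ∨
          (∃ x₀, ∀ x, |x - x₀| < η → |m x - deriv r x / 2| ≤ ε) ∨
          ∃ (γ₀ : ConvexCurve) (U₀ : ℝ → ℝ → ℝ) (κ₀ σ₀ lam₀ r₀ m₀ : ℝ → ℝ), Sol γ₀ U₀ κ₀ ∧
            Normal γ₀ κ₀ σ₀ lam₀ r₀ m₀ ∧ Pencil γ₀ U₀ ∧ (∀ x, |r x - r₀ x| ≤ ε) ∧
            ∀ x, |m x - m₀ x| ≤ ε) →
        Pencil γ U) ∧
    ∀ (X : Type) [TopologicalSpace X] [PreconnectedSpace X] (γ : X → ConvexCurve)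
      (U : X → ℝ → ℝ → ℝ) (κ σ lam r m : X → ℝ → ℝ), (∀ a, Sol (γ a) (U a) (κ a)) →
      (∀ a, Normal (γ a) (κ a) (σ a) (lam a) (r a) (m a)) →
      (∀ a, ∀ ε > 0, ∀ᶠ b in 𝓝 a, (∀ x, |r b x - r a x| ≤ ε) ∧ ∀ x, |m b x - m a x| ≤ ε) →
      (∀ a, ∃ K, ∀ᶠ b in 𝓝 a, Bnd K (r b) (m b)) →
      (∀ a, ∃ δ > 0, ((∀ x, r a x = r a 0) → 3 / 7 < δ) ∧
        ∀ᶠ b in 𝓝 a, Reach (γ b) (U b) (σ b) δ) →
      ∀ a b, Pencil (γ a) (U a) → Pencil (γ b) (U b) := by
  refine ⟨fun γ U κ h => ?_, fun γ κ σ lam r m σ' lam' r' m' h h' => ?_,
    fun K δ η hδ hη => Pool.Agent.MP_ae5b4e_an_LOC.near_conic_or hδ hη,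
    fun X _ _ γ U κ σ lam r m hS hN hc hB hR a b ha => ?_⟩
  · obtain ⟨σ, lam, r, m, hN⟩ := h.exists_normal
    exact ⟨σ, lam, r, m, hN, Pool.Agent.MP_ae5b4e_an_ALM.exists_bnd hN,
      Pool.Agent.MP_ae5b4e_an_LOC.exists_reach h hN,
      Pool.Agent.MP_ae5b4e_an_LOC.normal_conic_iff h hN⟩
  · obtain ⟨s, h1, h2, h3, h4⟩ := Pool.Agent.MP_ae5b4e_an_LOC.normal_unique h h'
    exact ⟨s, fun x => ⟨h1 x, h2 x, h3 x, h4 x⟩⟩
  · exact Pool.Agent.MP_ae5b4e_an_LOC.connected_family ⟨hS, hN, hc, hB, hR⟩ ha b

end Pool.Agent.Results.MP_ae5b4e_an.NearConic
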