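import Mathlib
import Pool.Agent.Lib.MP_ae5b4e_an_RG.Inf
import Pool.Agent.Lib.MP_ae5b4e_an_FA.Fin
import Pool.Agent.Lib.MP_ae5b4e_an_FA.Str

/-!
# MP_ae5b4e_an: foliations around a curve which osculates a conic

Let `γ` be a smooth closed strictly convex curve in the plane, `γ.T` the period of its
parametrisation `t ↦ (x t, y t)`, and `γ.Γ t = (x t, y t, 1)`; the curvature may have zeros.  The
point with the coordinate `u` of the tangent line of `γ` at the parameter `t` is
`γ.pt t u = γ(t) + γ'(t) / u` (`u = ∞` is the tangency point, `u = 0` the point at infinity); `u` is
a projective coordinate of the tangent line, and the projective involutions that fix the tangency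
point and exchange its two sides are the maps `u ↦ κ - u`.  The leaves are closed curves
`γ.leaf U c`, `0 < c < 1`, of the projective plane, the sets of the points `γ.pt t (U c t)`; they
converge to `γ` for `c → 0`.  The foliated neighbourhood of `γ` may be arbitrarily thin, there is no
first integral, no symmetry and no assumption of analyticity.  We assume that the foliation is
smooth outside `γ`; or that the leaves are only continuous, but the field `κ` of the involutions is
smooth and the curvature of `γ` is positive.

THEOREM.  Suppose that `γ` has contact of infinite order with a conic at ONE point, or infinitely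
many points in common with a conic (for example an arc), and that all the involutions are
projective.  Then `γ` is a nondegenerate conic and all leaves are nondegenerate conics of one pencil
which contains `γ`.

Idea of the proof.  (0) The curvature is positive: at a zero `t₀` of the curvature the tangent line
is stationary, hence the derivative of `κ` at `t₀` is `u ^ 2 + v ^ 2 + α (u + v)` for the two points
`u`, `v` of every leaf near `γ`, `u + v = κ t₀`, which is impossible for `u → ∞`.  `γ` and `κ` are
real-analytic (in a suitable parameter), by estimates for the closed polygons with `q` vertices,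
`q → ∞`.  So `γ` is the conic and, after a projective map, the unit circle.  Let `z` be a complex
coordinate of the conic.  The tangent lines through the vertices of a polygon inscribed in a leaf
satisfy `1/(z⁺ - z) + 1/(z⁻ - z) = k z`, and there is `F (t, ρ)`, holomorphic near `ℝ × {0}` and
`1`-periodic in `t`, such that `F (t + j ρ, ρ)`, `j ∈ ℤ`, are the vertices; `f = F (·, 0)` satisfies
`k (f) = - f'' / f' ^ 2`.  Let `h` be the maximal height such that `F` is meromorphic near
`{|Im t| < h} × {0}`.

(1) `h = ∞`.  If `f` has a critical point or an affine symmetry besides the period, or if its
Schwarzian `2 Q` is constant, then `f` is rational in `exp (2 π i t)` or elliptic, `k` is algebraic,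
hence rational, and the leaves are conics of a pencil.  Otherwise `f` is locally univalent and `Q`
is entire, not constant, of period one.  On the scale `1 / N` of a point where `Q` grows at the rate
`N` the potential is close to `c ^ (-2) exp (- i z)`, `c N` very small; for `ρ = c` the polygons
are given by a label function, a preimage of `F` under `f`, which is followed through the critical
region, from the right and from the left; the two results differ by an affine symmetry of `f`, but
the values show that the difference is not a period of `Q`.

(2) `h < ∞`.  Then `F` is regular at no point of the line `Im t = h` (natural boundary), `f` is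
locally univalent in the strip and has no affine symmetries except the period.  Let `h - v (ρ)` be
the height to which `F (·, ρ)` extends; `v` is subharmonic, even, `v 0 = 0`, `v ≥ - |Im ρ|`.

(2a) If `v (ρ) = O (|ρ|)` then `|Q| (h - |Im t|) ^ 2` is bounded.  This is impossible: for
`ρ = 1 / q` the closed chains of labels form an analytic set, on which a plurisubharmonic function
built from the bound shows that one label comes to the boundary line separately from all others;
the limits of the rescaled curves satisfy an algebraic differential equation, and a curve of this
kind is constant.

(2b) Potential theory of `v` (Carleman's inequality, the Phragmén-Lindelöf principle): if `v` is not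
`O (|ρ|)` then there are either scales `c` with `v (c) ≥ η max_{|ρ| ≤ c} v`, `c` real, at which `v`
grows at most linearly (regime A), or arbitrarily long intervals of scales on which `v` is close to
`K |Im ρ|` with large `K` (regime B); a Hoelder bound for `v` at `0` follows from a polynomial bound
for `Q`, which is proved as in (1).

(2c) Regime B is impossible: the potential is close to `- K ^ 2 / (t - t₀) ^ 2` near suitable
points, the chains of labels are controlled by the Riccati equation up to the first zero of the
Moebius coordinate, beyond which `F` is singular; the radii of regularity are subharmonic and a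
contraction argument shows that the heights are too small for the fact that for irrational `ρ` two
points of the line at the distance `ρ` are not both regular.

(2d) Regime A is impossible: the windows of size `max v` at the places of the boundary line have
limits, in which the label function satisfies `w = sin y exp (1 - y cot y)`, `y = w L_t`,
`w = ρ (q (L)) ^ (1/2)`, `q` the limit potential.  For real `ρ` the singular points of the line are
the tips (`ρ ^ 2 q = - e ^ 2 / 4`), the zeros of `q`, and points at which the depth of the label is
not bounded; an area argument (packing of the images of cones) and the two constants theorem show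
that long stretches of the line are free of the latter, because otherwise `q` decays faster than
every power of the depth, and then the paths of the values of `y` in the strip `|Re y| < π / 2` show
that for some larger `ρ` they do not exist at all.  The chains pass below a singular point by
a map which differs from the identity by a periodic function; Fourier series in the position on the
line and the subharmonicity of the rates of their coefficients in `ρ` show that every tip has a
partner: the difference of the two singular points is a real multiple of `ρ`, on an interval of
`ρ`.  This identity is continued along `ρ = ρ₀ exp (u t)`, `t → ∞`: the singular points move along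
the level lines `arg q = const`, and the asymptotic expansion of the continuation shows that the
multiple is zero, provided that the level lines which are met have finite length in a weighted
sense; and this holds for one window limit, by averaging over all places.
-/

noncomputable section

namespace Pool.Agent.Results.MP_ae5b4e_an.PencilConic

open Real Set Filter Topology
open scoped ContDiff
open Pool.Agent.MP_ae5b4e_an_FA (StrictCurve conic)

/-- If a smooth closed strictly convex curve has contact of infinite order with a conic at one point
(or infinitely many points on it) and if it has a foliation by closed curves which induces projective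
involutions on its tangent lines, then the curve is an ellipse and the leaves are conics of one
pencil. -/
theorem result (γ : StrictCurve) (C : QuadraticForm ℝ (Fin 3 → ℝ)) (hC : C ≠ 0) (t₀ : ℝ)
    (hosc : ∀ n : ℕ, ∃ᶠ t in 𝓝[≠] t₀, |C (γ.Γ t)| ≤ |t - t₀| ^ n) (U : ℝ → ℝ → ℝ) (κ : ℝ → ℝ)
    (hcont : ContinuousOn (fun p : ℝ × ℝ => U p.1 p.2) (Ioo 0 1 ×ˢ univ))
    (hper : ∀ c ∈ Ioo (0:ℝ) 1, ∀ t, U c (t + γ.T) = U c t)
    (hsimple : ∀ c ∈ Ioo (0:ℝ) 1, ∀ t t', γ.pt t (U c t) = γ.pt t' (U c t') →
      ∃ n : ℤ, t' = t + n * γ.T)
    (hmono : ∀ c ∈ Ioo (0:ℝ) 1, ∀ c' ∈ Ioo (0:ℝ) 1, c < c' → ∀ t, U c' t < U c t)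
    (hlim : ∀ t, Tendsto (fun c => U c t) (𝓝[>] 0) atTop)
    (hreg : (ContDiffOn ℝ ∞ (fun z : ℝ × ℝ => U z.1 z.2) (Ioo 0 1 ×ˢ univ) ∧
      ∀ c ∈ Ioo (0:ℝ) 1, ∀ t, deriv (fun r => U r t) c < 0) ∨
      (ContDiff ℝ ∞ κ ∧ ∀ t, 0 < γ.curv t))
    (hproj : ∀ c ∈ Ioo (0:ℝ) 1, ∀ t u v, u ≠ v → γ.pt t u ∈ γ.leaf U c →
      γ.pt t v ∈ γ.leaf U c → u + v = κ t) :
    ∃ Q E : QuadraticForm ℝ (Fin 3 → ℝ), E.Nondegenerate ∧ γ.trace = conic E ∧
      (∀ t, 0 < Q (γ.Γ t)) ∧
      ∀ c ∈ Ioo (0:ℝ) 1, ∃ ρ : ℝ, (Q - ρ • E).Nondegenerate ∧
        γ.leaf U c = conic (Q - ρ • E) := by
  have hpos : ∀ t, 0 < γ.curv t :=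
    hreg.elim (fun h => γ.curved hsimple hlim h.1 h.2 hproj) fun h => h.2
  have hreg' : ContDiff ℝ ∞ κ ∨ (ContDiffOn ℝ ∞ (fun z : ℝ × ℝ => U z.1 z.2) (Ioo 0 1 ×ˢ univ) ∧
      ∀ c ∈ Ioo (0:ℝ) 1, ∀ t, deriv (fun r => U r t) c < 0) := hreg.elim Or.inr fun h => Or.inl h.1
  exact Pool.Agent.MP_ae5b4e_an_FA.conic_all (γ.toConvex hpos)
    ⟨hcont, hper, hsimple, hmono, hlim, hproj⟩ hreg' hC (t₀ := t₀)
    (Eventually.of_forall (Pool.Agent.MP_ae5b4e_an_RG.all_of_freq (γ.toConvex hpos)
      ⟨hcont, hper, hsimple, hmono, hlim, hproj⟩ hreg' C hosc))

end Pool.Agent.Results.MP_ae5b4e_an.PencilConic
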